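import Mathlib

/-!
# A fuzzy implication satisfying only (CP) with respect to a fuzzy negation
-/

set_option autoImplicit false

namespace Pool.Agent.Results.MP_e504dd_lc.OnlyContrapositive

open Set unitInterval

/-- A fuzzy negation: a non-increasing self-map of `[0,1]` exchanging the end points. -/
structure IsFuzzyNegation (N : I → I) : Prop where
  anti : Antitone N
  zero : N 0 = 1
  one : N 1 = 0

/-- A fuzzy implication. -/
structure IsFuzzyImplication (J : I → I → I) : Prop where
  anti_left : ∀ y, Antitone fun x => J x y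
  mono_right : ∀ x, Monotone fun y => J x y
  zero_zero : J 0 0 = 1
  one_one : J 1 1 = 1
  one_zero : J 1 0 = 0

/-- The law of contraposition. -/
def CP (J : I → I → I) (N : I → I) : Prop := ∀ x y, J x y = J (N y) (N x)

/-- The law of left contraposition. -/
def LCP (J : I → I → I) (N : I → I) : Prop := ∀ x y, J (N x) y = J (N y) x

/-- The law of right contraposition. -/
def RCP (J : I → I → I) (N : I → I) : Prop := ∀ x y, J x (N y) = J y (N x)

/-- The implication with value 1 on `x ≤ y` and 0 elsewhere. -/
noncomputable def res (x y : I) : I := if x ≤ y then 1 else 0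

theorem res_isFuzzyImplication : IsFuzzyImplication res where
  anti_left y x x' h := by
    simp only [res]
    by_cases h' : x' ≤ y
    · rw [if_pos h', if_pos (h.trans h')]
    · rw [if_neg h']; exact bot_le
  mono_right x y y' h := by
    simp only [res]
    by_cases h' : x ≤ y
    · rw [if_pos h', if_pos (h'.trans h)]
    · rw [if_neg h']; exact bot_le
  zero_zero := by simp [res]
  one_one := by simp [res]
  one_zero := by
    simp only [res]
    rw [if_neg]
    intro h
    have : (1 : ℝ) ≤ 0 := h
    linarith

/-- Every strictly decreasing negation satisfies (CP) together with `res`. -/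
theorem res_cp {N : I → I} (hN : StrictAnti N) : CP res N := by
  intro x y
  simp only [res, hN.le_iff_ge]

/-- The negation `1 - x ^ 2`. -/
noncomputable def neg2 (x : I) : I := ⟨1 - (x : ℝ) ^ 2, by
  constructor
  · nlinarith [x.2.1, x.2.2]
  · nlinarith [x.2.1, x.2.2]⟩

theorem neg2_strictAnti : StrictAnti neg2 := by
  intro x y h
  have h' : (x : ℝ) < y := h
  change (1 - (y : ℝ) ^ 2) < 1 - (x : ℝ) ^ 2
  nlinarith [x.2.1, y.2.1]

theorem neg2_isFuzzyNegation : IsFuzzyNegation neg2 where
  anti := neg2_strictAnti.antitone
  zero := by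
    apply Subtype.ext
    simp [neg2]
  one := by
    apply Subtype.ext
    simp [neg2]

theorem le_of_lcp {N : I → I} (h : LCP res N) (x : I) : N (N x) ≤ x := by
  have h1 := h x (N x)
  simp only [res] at h1
  rw [if_pos le_rfl] at h1
  by_contra hc
  rw [if_neg hc] at h1
  exact one_ne_zero h1

theorem le_of_rcp {N : I → I} (h : RCP res N) (x : I) : x ≤ N (N x) := by
  have h1 := h (N x) x
  simp only [res] at h1
  rw [if_pos le_rfl] at h1
  by_contra hc
  rw [if_neg hc] at h1
  exact one_ne_zero h1

/-- **Only (CP).** There is a fuzzy implication `J` (with values 0 and 1 only) such that, for every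
strictly decreasing fuzzy negation `N` that is not an involution, `J` satisfies (CP) but neither
(L-CP) nor (R-CP) with respect to `N`; and such negations exist. -/
theorem result : ∃ J : I → I → I, IsFuzzyImplication J ∧
    (∀ N : I → I, IsFuzzyNegation N → StrictAnti N → (∃ x, N (N x) ≠ x) →
      CP J N ∧ ¬ LCP J N ∧ ¬ RCP J N) ∧
    ∃ N : I → I, IsFuzzyNegation N ∧ StrictAnti N ∧ ∃ x, N (N x) ≠ x := by
  refine ⟨res, res_isFuzzyImplication, ?_, neg2, neg2_isFuzzyNegation, neg2_strictAnti, ?_⟩
  · rintro N - hN ⟨x, hx⟩
    refine ⟨res_cp hN, fun h => ?_, fun h => ?_⟩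
    · have h1 : N (N x) < x := lt_of_le_of_ne (le_of_lcp h x) hx
      exact absurd (hN h1) (not_lt.2 (le_of_lcp h (N x)))
    · have h1 : x < N (N x) := lt_of_le_of_ne (le_of_rcp h x) (Ne.symm hx)
      exact absurd (hN h1) (not_lt.2 (le_of_rcp h (N x)))
  · refine ⟨⟨1 / 2, by norm_num, by norm_num⟩, fun h => ?_⟩
    have h1 := congrArg (fun z : I => (z : ℝ)) h
    simp only [neg2] at h1
    norm_num at h1

end Pool.Agent.Results.MP_e504dd_lc.OnlyContrapositive
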